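import Pool.Agent.Helper71.FL2.Cons0
import Pool.Agent.Helper61.FL2.BSegC
import Pool.Agent.Helper91.FL2.RSFinal
import Pool.Agent.Helper41.FL2.V4
import Pool.Agent.Helper53.FL2.HmAdj

/-!
# Project FL2, module D2 (CONS): equivalences of complete Segal presheaves
-/

open CategoryTheory MonoidalCategory Opposite

set_option autoImplicit false

namespace Pool.Agent.Helper71.FL2

open _root_.FL

theorem deps : Deps where
  vfib := fun hX => Helper53FL2.InjFib.vfib hX
  spLoc_iff := fun hX => Pool.Agent.Helper61.FL2.spLoc_iff hX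
  objHoEq_of_Hm := fun hX hY hX' hY' _ h0 O hO h =>
    Pool.Agent.Helper61.FL2.objHoEq_of_Hm hX hY hX' hY' h0 O hO h
  evE_kanFib := fun hX => Pool.Agent.Helper91.FL2.evE_kanFib hX
  ff_evE := fun hX hY hX' hY' f h => Pool.Agent.Helper91.FL2.ff_evE hX hY hX' hY' f h
  sg_succ_iff := fun hX O hO => Helper41FL2.sg_succ_iff hX O hO
  cj_succ_iff := fun hX O hO => Helper41FL2.cj_succ_iff hX O hO
  cj_zero_iff := Helper41FL2.cj_zero_iff
  isCat_iff := Helper41FL2.isCat_iff

/-- The mapping presheaves of an `(∞,n+1)`-category are `(∞,n)`-categories. -/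
theorem isCat_Hm' {n : ℕ} {X : SP (Th (n + 1))} (hX : IsCat (n + 1) X)
    (x y : Vt (C := Th n) X) : IsCat n (Hm (C := Th n) X x y) := isCat_Hm deps hX x y

theorem ES_objHoEq {n : ℕ} {X Y : SP (Th n)} (hX : IsCat n X) (hY : IsCat n Y) {f : X ⟶ Y}
    (hf : ES n n f) : ObjHoEq f := ES_objHoEq_of deps n X Y hX hY f hf

end Pool.Agent.Helper71.FL2
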