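import Pool.Agent.Helper71.FL2.ConsB

/-!
# Project FL2, module D2 (CONS): equivalences of complete Segal presheaves
(the statements of V1 - V4 used are explicit hypotheses)
-/

open CategoryTheory MonoidalCategory CartesianMonoidalCategory Opposite

set_option autoImplicit false

namespace Pool.Agent.Helper71.FL2

open _root_.FL

/-- The statements of the modules V1 - V4 which are used. -/
structure Deps : Prop where
  vfib : ∀ {C : Type} [SmallCategory C] {X : SP (Wr C)}, InjFib X → VFib X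
  spLoc_iff : ∀ {C : Type} [SmallCategory C] {X : SP (Wr C)}, InjFib X → (SpLoc X ↔ BSeg X)
  objHoEq_of_Hm : ∀ {C : Type} [SmallCategory C] {X Y : SP (Wr C)}, VFib X → VFib Y → BSeg X →
    BSeg Y → ∀ {f : X ⟶ Y}, HoEq (f.app (op Wr.pt)) → ∀ O : Set (Vt X),
    (∀ z : Vt X, ∃ x ∈ O, Cn (X.obj (op Wr.pt)) x z) →
    (∀ x ∈ O, ∀ y ∈ O, ObjHoEq (HmMap f x y)) → ObjHoEq f
  evE_kanFib : ∀ {C : Type} [SmallCategory C] {X : SP (Wr C)}, InjFib X → KanFib (evE X)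
  ff_evE : ∀ {C : Type} [SmallCategory C] {X Y : SP (Wr C)}, InjFib X → InjFib Y → BSeg X →
    BSeg Y → ∀ (f : X ⟶ Y), (∀ x y : Vt X, ObjHoEq (HmMap f x y)) →
    HoEq (Fp.lift (Mp.post (disc (isoPsh C)) f) (evE X) (evE_post f) :
      Mp (disc (isoPsh C)) X ⟶ Fp (evE Y) (f.app (op Wr.pt) ⊗ₘ f.app (op Wr.pt)))
  sg_succ_iff : ∀ {n : ℕ} {X : SP (Th (n + 1))}, InjFib X → ∀ O : Set (Vt (C := Th n) X),
    (∀ z : Vt (C := Th n) X, ∃ x ∈ O, Cn (X.obj (op (ptT (n + 1)))) x z) →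
    (Sg (n + 1) X ↔ SpLoc (C := Th n) X ∧ ∀ x ∈ O, ∀ y ∈ O, Sg n (Hm (C := Th n) X x y))
  cj_succ_iff : ∀ {n j : ℕ} {X : SP (Th (n + 1))}, InjFib X → ∀ O : Set (Vt (C := Th n) X),
    (∀ z : Vt (C := Th n) X, ∃ x ∈ O, Cn (X.obj (op (ptT (n + 1)))) x z) →
    (Cj (n + 1) (j + 1) X ↔ ∀ x ∈ O, ∀ y ∈ O, Cj n j (Hm (C := Th n) X x y))
  cj_zero_iff : ∀ {n : ℕ} {X : SP (Th (n + 1))}, Cj (n + 1) 0 X ↔ Loc X (isoMap (Th n))
  isCat_iff : ∀ {n : ℕ} {X : SP (Th n)}, IsCat n X ↔ Sg n X ∧ ∀ j, Cj n j X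

theorem isCat_Hm (D : Deps) {n : ℕ} {X : SP (Th (n + 1))} (hX : IsCat (n + 1) X)
    (x y : Vt (C := Th n) X) : IsCat n (Hm (C := Th n) X x y) := by
  have h := D.isCat_iff.1 hX
  have hu : ∀ z : Vt (C := Th n) X, ∃ x ∈ (Set.univ : Set (Vt (C := Th n) X)),
      Cn (X.obj (op (ptT (n + 1)))) x z := fun z =>
    ⟨z, trivial, Pool.Agent.Helper54.FL2.cn_refl z⟩
  refine D.isCat_iff.2 ⟨((D.sg_succ_iff hX.inj Set.univ hu).1 h.1).2 x trivial y trivial,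
    fun j => (D.cj_succ_iff hX.inj Set.univ hu).1 (h.2 (j + 1)) x trivial y trivial⟩

theorem ES_objHoEq_of (D : Deps) : ∀ (n : ℕ) (X Y : SP (Th n)), IsCat n X → IsCat n Y →
    ∀ (f : X ⟶ Y), ES n n f → ObjHoEq f
  | 0, X, Y, _, _, f, hf => by
    rintro ⟨⟨⟨⟩⟩⟩
    exact hf
  | (n + 1), X, Y, hX, hY, f, hf => by
    have hH : ∀ x y : Vt (C := Th n) X, ObjHoEq (HmMap (C := Th n) f x y) := fun x y =>
      ES_objHoEq_of D n _ _ (isCat_Hm D hX x y) (isCat_Hm D hY _ _) _ (hf.2 x y)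
    have hu : ∀ z : Vt (C := Th n) X, ∃ x ∈ (Set.univ : Set (Vt (C := Th n) X)),
        Cn (X.obj (op (ptT (n + 1)))) x z := fun z =>
      ⟨z, trivial, Pool.Agent.Helper54.FL2.cn_refl z⟩
    have huY : ∀ z : Vt (C := Th n) Y, ∃ x ∈ (Set.univ : Set (Vt (C := Th n) Y)),
        Cn (Y.obj (op (ptT (n + 1)))) x z := fun z =>
      ⟨z, trivial, Pool.Agent.Helper54.FL2.cn_refl z⟩
    have h1 := D.isCat_iff.1 hX
    have h2 := D.isCat_iff.1 hY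
    have hBX : BSeg (C := Th n) X :=
      (D.spLoc_iff (C := Th n) hX.inj).1 ((D.sg_succ_iff hX.inj Set.univ hu).1 h1.1).1
    have hBY : BSeg (C := Th n) Y :=
      (D.spLoc_iff (C := Th n) hY.inj).1 ((D.sg_succ_iff hY.inj Set.univ huY).1 h2.1).1
    have h0 : HoEq (f.app (op (Wr.pt : Wr (Th n)))) :=
      hoEq_pt (C := Th n) hX.inj hY.inj (D.cj_zero_iff.1 (h1.2 0)) (D.cj_zero_iff.1 (h2.2 0)) f
        (D.evE_kanFib (C := Th n) hX.inj) (D.evE_kanFib (C := Th n) hY.inj)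
        (D.ff_evE (C := Th n) hX.inj hY.inj hBX hBY f hH) hf.1
    exact D.objHoEq_of_Hm (C := Th n) (D.vfib (C := Th n) hX.inj) (D.vfib (C := Th n) hY.inj)
      hBX hBY h0 Set.univ hu fun x _ y _ => hH x y

end Pool.Agent.Helper71.FL2
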