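import Pool.Agent.Helper54.FL2.Fib

/-!
# Project FL2, module D2 (CONS), part A: a criterion for equivalences in terms of path objects
-/

open CategoryTheory MonoidalCategory CartesianMonoidalCategory Simplicial Opposite
  HomotopicalAlgebra Limits

set_option autoImplicit false

namespace Pool.Agent.Helper71.FL2

open _root_.FL SSet SSet.modelCategoryQuillen Pool.Agent.Helper45.FL2 Pool.Agent.Helper54.FL2

theorem kanFib_snd {X Y : SSet.{0}} (hX : SSet.KanComplex X) : KanFib (snd X Y) := by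
  intro n i
  constructor
  intro u v sq
  obtain ⟨a, ha⟩ := KanComplex.hornFilling (u ≫ fst X Y)
  refine ⟨⟨{ l := lift a v, fac_left := ?_, fac_right := lift_snd _ _ }⟩⟩
  refine CartesianMonoidalCategory.hom_ext _ _ ?_ ?_
  · rw [Category.assoc, lift_fst, ← ha]
  · rw [Category.assoc, lift_snd, sq.w]

theorem kanFib_fst {X Y : SSet.{0}} (hY : SSet.KanComplex Y) : KanFib (fst X Y) := by
  intro n i
  constructor
  intro u v sq
  obtain ⟨a, ha⟩ := KanComplex.hornFilling (u ≫ snd X Y)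
  refine ⟨⟨{ l := lift v a, fac_left := ?_, fac_right := lift_fst _ _ }⟩⟩
  refine CartesianMonoidalCategory.hom_ext _ _ ?_ ?_
  · rw [Category.assoc, lift_fst, sq.w]
  · rw [Category.assoc, lift_snd, ← ha]

theorem kan_prod {X Y : SSet.{0}} (hX : SSet.KanComplex X) (hY : SSet.KanComplex Y) :
    SSet.KanComplex (X ⊗ Y) := kan_total (kanFib_fst hY) hX

section

variable {X₀ Y₀ PX PY : SSet.{0}} (g : X₀ ⟶ Y₀) (eX : PX ⟶ X₀ ⊗ X₀) (eY : PY ⟶ Y₀ ⊗ Y₀)

/-- The end point map of the space of pairs `(x, path from g x)`. -/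
def qq : Fp (eY ≫ fst Y₀ Y₀) g ⟶ Y₀ := Fp.fst (eY ≫ fst Y₀ Y₀) g ≫ eY ≫ snd Y₀ Y₀

theorem qq_kanFib (hX : SSet.KanComplex X₀) (heY : KanFib eY) : KanFib (qq g eY) := by
  intro n i
  constructor
  intro u v sq
  obtain ⟨a, ha⟩ := KanComplex.hornFilling (u ≫ Fp.snd (eY ≫ fst Y₀ Y₀) g)
  have hw := Fp_w (eY ≫ fst Y₀ Y₀) g
  have sq' : CommSq (u ≫ Fp.fst (eY ≫ fst Y₀ Y₀) g) Λ[n + 1, i].ι eY (lift (a ≫ g) v) := ⟨by
    refine CartesianMonoidalCategory.hom_ext _ _ ?_ ?_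
    · have h1 : (u ≫ Fp.fst (eY ≫ fst Y₀ Y₀) g) ≫ eY ≫ fst Y₀ Y₀ =
          (u ≫ Fp.snd (eY ≫ fst Y₀ Y₀) g) ≫ g := by
        rw [Category.assoc, hw, Category.assoc]
      simp only [Category.assoc] at h1 ⊢
      rw [h1, lift_fst, ← Category.assoc u, ha, Category.assoc]
    · have h2 := sq.w
      rw [qq] at h2
      simp only [Category.assoc] at h2 ⊢
      rw [h2, lift_snd]⟩
  have := heY n i
  refine ⟨⟨{ l := Fp.lift sq'.lift a ?_, fac_left := ?_, fac_right := ?_ }⟩⟩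
  · rw [← Category.assoc, sq'.fac_right, lift_fst]
  · refine Fp_ext ?_ ?_
    · rw [Category.assoc, Fp_lift_fst, sq'.fac_left]
    · rw [Category.assoc, Fp_lift_snd, ← ha]
  · rw [qq, ← Category.assoc, Fp_lift_fst, ← Category.assoc, sq'.fac_right, lift_snd]

variable {g eX eY}

/-- A map `g : X₀ ⟶ Y₀` of Kan complexes is an equivalence if it is surjective on components and
cartesian over path objects. -/
theorem hoEq_of_paths (hX : SSet.KanComplex X₀) (hY : SSet.KanComplex Y₀) (t : PX ⟶ PY)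
    (w : t ≫ eY = eX ≫ (g ⊗ₘ g)) (heX : KanFib eX) (heY : KanFib eY)
    (hX1 : HoEq (eX ≫ snd X₀ X₀)) (hY0 : HoEq (eY ≫ fst Y₀ Y₀))
    (hff : HoEq (Fp.lift t eX w : PX ⟶ Fp eY (g ⊗ₘ g)))
    (s : X₀ ⟶ PY) (hs : s ≫ eY = lift g g)
    (hsurj : ∀ y, ∃ x, Cn Y₀ (g.app _ x) y) : HoEq g := by
  have hXX := kan_prod hX hX
  have hYY := kan_prod hY hY
  have hPX := kan_total heX hXX
  have hPY := kan_total heY hYY
  -- the fibration `(x, x', path from g x to g x') ↦ x'` is trivial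
  have hQ : KanFib (Fp.snd eY (g ⊗ₘ g)) := Fp_snd_kanFib _ _ heY
  have hQk : SSet.KanComplex (Fp eY (g ⊗ₘ g)) := kan_total hQ hXX
  have hq' : TrivFib (Fp.snd eY (g ⊗ₘ g) ≫ snd X₀ X₀) := by
    refine trivFib_of_hoEq hQk hX (kanFib_comp hQ (kanFib_snd hX)) ?_
    refine Pool.Agent.Helper88.FL.hoEq_of_comp_left hPX hQk hX hff ?_
    rw [← Category.assoc, Fp_lift_snd]
    exact hX1
  -- `q` is a trivial fibration
  have hq : TrivFib (qq g eY) := by
    refine trivFib_of_ctr' (qq_kanFib g eY hX heY) (Set.range (g.app _)) ?_ ?_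
    · intro y
      obtain ⟨x, hx⟩ := hsurj y
      exact ⟨_, ⟨x, rfl⟩, hx⟩
    · rintro _ ⟨x, rfl⟩ n u hu
      have h0 : ((u ≫ Fp.fst (eY ≫ fst Y₀ Y₀) g)) ≫ eY =
          lift (u ≫ Fp.snd (eY ≫ fst Y₀ Y₀) g) (SSet.const x) ≫ (g ⊗ₘ g) := by
        refine CartesianMonoidalCategory.hom_ext _ _ ?_ ?_
        · have hw := Fp_w (eY ≫ fst Y₀ Y₀) g
          simp only [Category.assoc]
          rw [hw, tensorHom_fst, ← Category.assoc (lift _ _), lift_fst, Category.assoc]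
        · simp only [Category.assoc]
          rw [tensorHom_snd, ← Category.assoc (lift _ _), lift_snd, const_comp]
          rw [qq, comp_const] at hu
          exact hu
      have sq : CommSq (Fp.lift _ _ h0) ∂Δ[n].ι (Fp.snd eY (g ⊗ₘ g) ≫ snd X₀ X₀)
          (SSet.const x) := ⟨by
        rw [← Category.assoc, Fp_lift_snd, lift_snd, comp_const]⟩
      have := hq' n
      have h1 := sq.fac_left
      have h2 := sq.fac_right
      generalize hl : sq.lift = l at h1 h2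
      have h3 := Fp_w eY (g ⊗ₘ g)
      refine ⟨Fp.lift (l ≫ Fp.fst eY (g ⊗ₘ g)) (l ≫ Fp.snd eY (g ⊗ₘ g) ≫ fst X₀ X₀) ?_, ?_, ?_⟩
      · simp only [Category.assoc]
        rw [← tensorHom_fst, ← Category.assoc _ eY, h3, Category.assoc]
      · refine Fp_ext ?_ ?_
        · rw [Category.assoc, Fp_lift_fst, ← Category.assoc, h1, Fp_lift_fst]
        · rw [Category.assoc, Fp_lift_snd, ← Category.assoc, h1, ← Category.assoc, Fp_lift_snd,
            lift_fst]
      · rw [qq, ← Category.assoc, Fp_lift_fst, Category.assoc, ← Category.assoc _ eY, h3,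
          Category.assoc, tensorHom_snd, ← Category.assoc (Fp.snd _ _), ← Category.assoc l, h2,
          const_comp]
  -- the projection to `X₀`
  have hr : TrivFib (Fp.snd (eY ≫ fst Y₀ Y₀) g) :=
    Fp_snd_trivFib _ _ (trivFib_of_hoEq hPY hY (kanFib_comp heY (kanFib_fst hY)) hY0)
  have hM : SSet.KanComplex (Fp (eY ≫ fst Y₀ Y₀) g) := kan_total (TrivFib.kanFib hr) hX
  have hs' : s ≫ eY ≫ fst Y₀ Y₀ = 𝟙 X₀ ≫ g := by
    rw [← Category.assoc, hs, lift_fst, Category.id_comp]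
  have hσ : HoEq (Fp.lift s (𝟙 X₀) hs') := by
    refine Pool.Agent.Helper88.FL.hoEq_of_comp_right hX hM hX (TrivFib.hoEq hr) ?_
    rw [Fp_lift_snd]
    exact Pool.Agent.Helper88.FL.hoEq_of_isIso _
  have hg : Fp.lift s (𝟙 X₀) hs' ≫ qq g eY = g := by
    rw [qq, ← Category.assoc, Fp_lift_fst, ← Category.assoc, hs, lift_snd]
  rw [← hg]
  exact Pool.Agent.Helper88.FL.hoEq_comp hX hM hY hσ (TrivFib.hoEq hq)

end

end Pool.Agent.Helper71.FL2
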