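import Pool.Agent.Helper58.FL2.Flag2
import Pool.Agent.Helper71.FL2.ConsA
import Pool.Agent.Helper83.FL.MpFibFinal
import Pool.Agent.Helper46.FL.PreHo

/-!
# Project FL2, module D2 (CONS), part B: the space of equivalences of a complete presheaf
-/

open CategoryTheory MonoidalCategory CartesianMonoidalCategory Simplicial Opposite

set_option autoImplicit false

namespace Pool.Agent.Helper71.FL2

open _root_.FL

variable {C : Type} [SmallCategory C]

/-- The constant maps. -/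
noncomputable def cO (X : SP (Wr C)) : X.obj (op Wr.pt) ⟶ Mp (one (Wr C)) X where
  app m := ↾ fun x =>
    ({ app := fun a k s _ => (X.map (Quiver.Hom.op (Wr.toPt a.unop))).app k
          ((X.obj (op Wr.pt)).map s.op x)
       nat_left := fun {a b} f k s _ => by
        refine Eq.trans ?_ (sp_comp X _ f _)
        exact congrArg (fun t => (X.map (Quiver.Hom.op t)).app k ((X.obj (op Wr.pt)).map s.op x))
          (Wr.toPt_unique _ _)
       nat_right := fun a {k l} g s _ => by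
        refine Eq.trans ?_ (sp_nat X _ g _)
        exact congrArg _ (sset_comp _ s.op g x) } : MpS (one (Wr C)) X m.unop)
  naturality m m' α := by
    refine ConcreteCategory.hom_ext _ _ fun x => ?_
    refine MpS.ext ?_
    funext a k s _
    exact congrArg _ (sset_comp _ α s.op x).symm

/-- Evaluation at the point. -/
noncomputable def eO (X : SP (Wr C)) : Mp (one (Wr C)) X ⟶ X.obj (op Wr.pt) where
  app m := ↾ fun (φ : MpS (one (Wr C)) X m.unop) => φ.app (op Wr.pt) m (𝟙 _) PUnit.unit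
  naturality m m' α := by
    refine ConcreteCategory.hom_ext _ _ fun (φ : MpS (one (Wr C)) X m.unop) => ?_
    refine Eq.trans ?_ (φ.nat_right (op Wr.pt) α (𝟙 _) PUnit.unit)
    show φ.app (op Wr.pt) m' (𝟙 _ ≫ α.unop) _ = φ.app (op Wr.pt) m' (α.unop ≫ 𝟙 _) _
    rw [Category.comp_id, Category.id_comp]
    rfl

theorem cO_eO (X : SP (Wr C)) : cO X ≫ eO X = 𝟙 _ := by
  refine NatTrans.ext (funext fun m => ?_)
  refine ConcreteCategory.hom_ext _ _ fun x => ?_
  show (X.map (Quiver.Hom.op (Wr.toPt Wr.pt))).app m ((X.obj (op Wr.pt)).map (𝟙 m) x) = x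
  rw [sset_id, Wr.toPt_unique (Wr.toPt (Wr.pt : Wr C)) (𝟙 _)]
  exact sp_id X x

theorem eO_cO (X : SP (Wr C)) : eO X ≫ cO X = 𝟙 _ := by
  refine NatTrans.ext (funext fun m => ?_)
  refine ConcreteCategory.hom_ext _ _ fun (φ : MpS (one (Wr C)) X m.unop) => ?_
  refine MpS.ext ?_
  funext a k s u
  show (X.map (Quiver.Hom.op (Wr.toPt a.unop))).app k
    ((X.obj (op Wr.pt)).map s.op (φ.app (op Wr.pt) m (𝟙 _) PUnit.unit)) = φ.app a k s u
  rw [← φ.nat_right (op Wr.pt) s.op (𝟙 _) PUnit.unit, ← φ.nat_left]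
  show φ.app a k (s ≫ 𝟙 _) PUnit.unit = φ.app a k s u
  rw [Category.comp_id]
  rfl

theorem cO_hoEq (X : SP (Wr C)) : HoEq (cO X) := by
  have : IsIso (cO X) := ⟨eO X, cO_eO X, eO_cO X⟩
  exact Pool.Agent.Helper88.FL.hoEq_of_isIso _

/-- The constant equivalences. -/
noncomputable def cE (X : SP (Wr C)) : X.obj (op Wr.pt) ⟶ Mp (disc (isoPsh C)) X :=
  cO X ≫ Mp.pre (isoMap C) X

theorem cE_evE (X : SP (Wr C)) : cE X ≫ evE X = lift (𝟙 _) (𝟙 _) := by
  refine NatTrans.ext (funext fun m => ?_)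
  refine ConcreteCategory.hom_ext _ _ fun x => ?_
  have key : (X.map (Quiver.Hom.op (Wr.toPt Wr.pt))).app m ((X.obj (op Wr.pt)).map (𝟙 m) x) = x := by
    rw [sset_id, Wr.toPt_unique (Wr.toPt (Wr.pt : Wr C)) (𝟙 _)]
    exact sp_id X x
  exact Prod.ext key key

theorem cE_hoEq {X : SP (Wr C)} (hX : InjFib X) (h : Loc X (isoMap C)) : HoEq (cE X) :=
  Pool.Agent.Helper88.FL.hoEq_comp
    (Pool.Agent.Helper46.FLb.InjFib.objKan (fun P _ => Pool.Agent.Helper83.FL4.Mp_kan P) hX _)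
    (Pool.Agent.Helper83.FL4.Mp_kan _ hX) (Pool.Agent.Helper83.FL4.Mp_kan _ hX) (cO_hoEq X) h

theorem ev_hoEq {X : SP (Wr C)} (hX : InjFib X) (h : Loc X (isoMap C)) :
    HoEq (evE X ≫ fst _ _) ∧ HoEq (evE X ≫ snd _ _) := by
  have hK := Pool.Agent.Helper46.FLb.InjFib.objKan (fun P _ => Pool.Agent.Helper83.FL4.Mp_kan P) hX
    (op Wr.pt)
  have hM := Pool.Agent.Helper83.FL4.Mp_kan (disc (isoPsh C)) hX
  constructor
  · refine Pool.Agent.Helper88.FL.hoEq_of_comp_left hK hM hK (cE_hoEq hX h) ?_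
    rw [← Category.assoc, cE_evE, lift_fst]
    exact Pool.Agent.Helper88.FL.hoEq_of_isIso _
  · refine Pool.Agent.Helper88.FL.hoEq_of_comp_left hK hM hK (cE_hoEq hX h) ?_
    rw [← Category.assoc, cE_evE, lift_snd]
    exact Pool.Agent.Helper88.FL.hoEq_of_isIso _

/-- A fully faithful map of complete presheaves which is surjective on components of the spaces of
objects is an equivalence on the spaces of objects. -/
theorem hoEq_pt {X Y : SP (Wr C)} (hX : InjFib X) (hY : InjFib Y) (hX' : Loc X (isoMap C))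
    (hY' : Loc Y (isoMap C)) (f : X ⟶ Y) (heX : KanFib (evE X)) (heY : KanFib (evE Y))
    (hff : HoEq (Fp.lift (Mp.post (disc (isoPsh C)) f) (evE X) (evE_post f) :
      Mp (disc (isoPsh C)) X ⟶ Fp (evE Y) (f.app (op Wr.pt) ⊗ₘ f.app (op Wr.pt))))
    (hsurj : ∀ y : Vt Y, ∃ x : Vt X, Cn (Y.obj (op Wr.pt)) (vtMap f x) y) :
    HoEq (f.app (op Wr.pt)) := by
  have hKX := Pool.Agent.Helper46.FLb.InjFib.objKan (fun P _ => Pool.Agent.Helper83.FL4.Mp_kan P)
    hX (op Wr.pt)
  have hKY := Pool.Agent.Helper46.FLb.InjFib.objKan (fun P _ => Pool.Agent.Helper83.FL4.Mp_kan P)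
    hY (op Wr.pt)
  refine hoEq_of_paths hKX hKY _ (evE_post f) heX heY (ev_hoEq hX hX').2 (ev_hoEq hY hY').1 hff
    (f.app (op Wr.pt) ≫ cE Y) ?_ hsurj
  rw [Category.assoc, cE_evE]
  refine CartesianMonoidalCategory.hom_ext _ _ ?_ ?_
  · rw [Category.assoc, lift_fst, lift_fst, Category.comp_id]
  · rw [Category.assoc, lift_snd, lift_snd, Category.comp_id]

end Pool.Agent.Helper71.FL2
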